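import Pool.Agent.Helper61.HilbQ2
import Pool.Agent.Helper61.HilbPowFam

/-!
# `MP_9d305a_ag`: the maximum is attained at a point of another component

All definitions (`Hilb`, its Zariski topology, `reduced`, `smoothable`, `IsCoord`, `eqns`,
`tangent`, `HasTangentDim`) are in `Pool.Agent.Helper61.HilbDef`.
-/

open MvPolynomial Module TopologicalSpace Pool.Agent.Hilb61

namespace Pool.Agent.Results.MP_9d305a_ag.OtherComponent

universe u

/-- The maximum `t(d,n)` of the dimensions of the Zariski tangent spaces of `H_{d,n}` is attained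
at a point of `H_{d,n}` which also lies on another irreducible component of `Hilb^d(𝔸^n)`. -/
def Attained (k : Type u) [Field k] (n d : ℕ) : Prop :=
  ∃ (t : ℕ) (x : Hilb k n d),
    IsGreatest {N : ℕ | ∃ y ∈ smoothable k n d, HasTangentDim y N} t ∧
    x ∈ smoothable k n d ∧ HasTangentDim x t ∧
    ∃ Z ∈ irreducibleComponents (Hilb k n d), x ∈ Z ∧ Z ≠ smoothable k n d

theorem exists_max {P : ℕ → Prop} {b : ℕ} (h1 : ∃ N, P N) (h2 : ∀ N, P N → N ≤ b) :
    ∃ t, IsGreatest {N | P N} t := by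
  classical
  obtain ⟨N, hN⟩ := h1
  let s := (Finset.range (b + 1)).filter P
  have hs : N ∈ s := by
    rw [Finset.mem_filter, Finset.mem_range]
    exact ⟨Nat.lt_succ_of_le (h2 N hN), hN⟩
  obtain ⟨t, ht1, ht2⟩ := s.exists_max_image id ⟨N, hs⟩
  rw [Finset.mem_filter, Finset.mem_range] at ht1
  refine ⟨t, ⟨ht1.2, fun M hM => ?_⟩⟩
  apply ht2 M
  rw [Finset.mem_filter, Finset.mem_range]
  exact ⟨Nat.lt_succ_of_le (h2 M hM), hM⟩

/-- For every `n ≥ 3` there is `d₀` such that for all `d ≥ d₀` and all algebraically closed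
fields `k` of characteristic `0` or `> d`, the maximum `t(d,n)` is attained at a point which also
lies on another component. For all algebraically closed fields `k` (of any characteristic) this
also holds for all `d = C(n+r-1,n)` with `n = 3`, `r ≥ 8`, or `n ≥ 4`, `r ≥ 4`, or `n ≥ 6`,
`r ≥ 3`. -/
theorem result :
    (∀ n : ℕ, 3 ≤ n → ∃ d₀ : ℕ, ∀ d, d₀ ≤ d → ∀ (k : Type u) [Field k] [IsAlgClosed k],
      (ringChar k = 0 ∨ d < ringChar k) → Attained k n d) ∧
    (∀ (k : Type u) [Field k] [IsAlgClosed k] (n r : ℕ),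
      (n = 3 ∧ 8 ≤ r) ∨ (4 ≤ n ∧ 4 ≤ r) ∨ (6 ≤ n ∧ 3 ≤ r) →
      Attained k n ((n + r - 1).choose n)) := by
  constructor
  · intro n hn
    obtain ⟨d₀, hd₀⟩ := exists_other_component.{u} n hn
    refine ⟨max d₀ 1, fun d hd k _ _ hk => ?_⟩
    have hinf : Infinite k := IsAlgClosed.instInfinite
    have hd1 : 1 ≤ d := le_trans (le_max_right _ _) hd
    have hK : ∀ m : ℕ, 1 ≤ m → m ≤ d → (m : k) ≠ 0 := by
      intro m hm1 hmd h0
      rw [ringChar.spec] at h0
      rcases hk with hk | hk
      · rw [hk, zero_dvd_iff] at h0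
        omega
      · have := Nat.le_of_dvd hm1 h0
        omega
    obtain ⟨x₀, hx₀, N₀, hN₀, -⟩ := exists_lower k (show 2 ≤ n by omega) (le_refl 1)
      (show Dn n 1 ≤ d by
        rw [Dn, Nat.sub_add_cancel (by omega), Nat.choose_self]
        exact hd1)
    obtain ⟨t, ht⟩ := exists_max (P := fun N => ∃ y ∈ smoothable k n d, HasTangentDim y N)
      (b := TB n d) ⟨N₀, x₀, hx₀, hN₀⟩ (by
        rintro N ⟨y, -, lam, c, hc, rfl⟩
        exact finrank_tangent_le_TB hn hd1 hc)
    obtain ⟨x, hx, hxt, Z, hZ, hxZ, hZs⟩ := hd₀ d (le_trans (le_max_left _ _) hd) k hK t ht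
    exact ⟨t, x, ht, hx, hxt, Z, hZ, hxZ, fun h => hZs h.le⟩
  · intro k _ _ n r h
    have hinf : Infinite k := IsAlgClosed.instInfinite
    have hn : 3 ≤ n := by omega
    have hr : 1 ≤ r := by omega
    have i0 : Fin n := ⟨0, by omega⟩
    have hD : Dn n r = (n + r - 1).choose n := by
      rw [Dn]
      congr 1
      omega
    obtain ⟨mon, hm⟩ := exists_enum n r hr
    have e1 : n.multichoose r = (n + r - 1).choose (n - 1) := by
      rw [Nat.multichoose_eq, ← Nat.choose_symm_of_eq_add (show n + r - 1 = (n - 1) + r by omega)]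
    have e2 : n.multichoose (r - 1) = (n + r - 2).choose (n - 1) := by
      rw [Nat.multichoose_eq, show n + (r - 1) - 1 = n + r - 2 by omega,
        ← Nat.choose_symm_of_eq_add (show n + r - 2 = (n - 1) + (r - 1) by omega)]
    have hT : TB n ((n + r - 1).choose n) =
        (n + r - 1).choose (n - 1) * (n + r - 2).choose (n - 1) := by
      rw [← hD, TB_Dn hn]
    have hfin : finrank k (tangent (lamD k mon) (c00 k mon)) =
        (n + r - 1).choose (n - 1) * (n + r - 2).choose (n - 1) := by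
      rw [← e1, ← e2]
      exact le_antisymm (finrank_pow_le hm hr (by omega)) (le_finrank_pow hm hr i0)
    have hx₀ : HasTangentDim (xpow (k := k) hm hr)
        ((n + r - 1).choose (n - 1) * (n + r - 2).choose (n - 1)) :=
      ⟨lamD k mon, c00 k mon, isCoord_pow hm hr, hfin⟩
    have hs₀ := xpow_smoothable (k := k) hm hr i0
    obtain ⟨Z, hZ, hxZ, hZs⟩ := pow_other_component k h hm hr hD.symm
    refine ⟨_, _, ⟨⟨_, hs₀, hx₀⟩, ?_⟩, hs₀, hx₀, Z, hZ, hxZ, fun h => hZs h.le⟩
    rintro N ⟨y, -, lam, c, hc, rfl⟩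
    rw [← hT]
    exact finrank_tangent_le_TB hn (Nat.choose_pos (by omega)) hc

end Pool.Agent.Results.MP_9d305a_ag.OtherComponent
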